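import Pool.Agent.H306R2.RZ.Defs
import Pool.Agent.Helper112.Arith

set_option autoImplicit false

namespace Pool.Agent.H964R2.RZ

open Finset Filter Topology MeasureTheory
open Pool.Agent.H306R2.RZ

noncomputable section

/-- the statement of task P4c -/
def P4cS : Prop := ∀ (k : ℤ), k ≠ 0 → ∀ (n : ℕ), Odd n →
    |Gk k n| ≤ Real.sqrt n * Real.sqrt (n.gcd k.natAbs) ∧
    (Gk k n ≠ 0 → n ∣ k.natAbs * ∏ p ∈ n.primeFactors, p)

theorem E3a_aux1 (hP : P4cS) (k : ℤ) (l a b : ℕ) (hk : k ≠ 0) (hl : Odd l) (ha : Odd a) (hb : Odd b) :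
    |Gk k (a * b * l)| / ((a : ℝ) * b) ≤ Real.sqrt l * Real.sqrt (k.natAbs.gcd l) := by
  have ha0 : 0 < a := ha.pos
  have hb0 : 0 < b := hb.pos
  have hl0 : 0 < l := hl.pos
  have h1 := (hP k hk (a * b * l) ((ha.mul hb).mul hl)).1
  have hK : 0 < k.natAbs := Int.natAbs_pos.mpr hk
  have hg : (a * b * l).gcd k.natAbs ≤ (a * b) * (k.natAbs.gcd l) := by
    have h2 : (a * b * l).gcd k.natAbs ∣ (a * b).gcd k.natAbs * l.gcd k.natAbs :=
      Nat.gcd_mul_left_dvd_mul_gcd _ _ _ |> fun h => by simpa using h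
    have h3 : (a * b).gcd k.natAbs ≤ a * b := Nat.gcd_le_left _ (Nat.mul_pos ha0 hb0)
    have h4 : 0 < (a * b).gcd k.natAbs * l.gcd k.natAbs :=
      Nat.mul_pos (Nat.gcd_pos_of_pos_right _ hK) (Nat.gcd_pos_of_pos_right _ hK)
    calc (a * b * l).gcd k.natAbs ≤ (a * b).gcd k.natAbs * l.gcd k.natAbs := Nat.le_of_dvd h4 h2
      _ ≤ (a * b) * (k.natAbs.gcd l) := by
        rw [Nat.gcd_comm l]; exact Nat.mul_le_mul_right _ h3
  have haR : (0 : ℝ) < a := by exact_mod_cast ha0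
  have hbR : (0 : ℝ) < b := by exact_mod_cast hb0
  have hab : (0 : ℝ) < (a : ℝ) * b := by positivity
  rw [div_le_iff₀ hab]
  calc |Gk k (a * b * l)| ≤ Real.sqrt ((a * b * l : ℕ) : ℝ) *
        Real.sqrt (((a * b * l).gcd k.natAbs : ℕ) : ℝ) := h1
    _ ≤ Real.sqrt (((a : ℝ) * b) * l) * Real.sqrt (((a : ℝ) * b) * (k.natAbs.gcd l : ℕ)) := by
        apply mul_le_mul
        · apply le_of_eq; push_cast; rfl
        · apply Real.sqrt_le_sqrt; exact_mod_cast hg
        · positivity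
        · positivity
    _ = Real.sqrt l * Real.sqrt (k.natAbs.gcd l) * ((a : ℝ) * b) := by
        rw [Real.sqrt_mul hab.le, Real.sqrt_mul hab.le]
        have := Real.mul_self_sqrt hab.le
        calc _ = (Real.sqrt ((a : ℝ) * b) * Real.sqrt ((a : ℝ) * b)) *
              (Real.sqrt l * Real.sqrt (k.natAbs.gcd l : ℕ)) := by ring
          _ = _ := by rw [this]; ring

theorem E3a_aux2 (hP : P4cS) (k : ℤ) (l a b : ℕ) (hk : k ≠ 0) (hl : Odd l) (ha : Odd a) (hb : Odd b)
    (hpa : a.primeFactors ⊆ (k.natAbs * l).primeFactors)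
    (hpb : b.primeFactors ⊆ (k.natAbs * l).primeFactors) (h : Gk k (a * b * l) ≠ 0) :
    a * b ∣ k.natAbs * k.natAbs := by
  have ha0 : 0 < a := ha.pos
  have hb0 : 0 < b := hb.pos
  have hl0 : 0 < l := hl.pos
  have hK : 0 < k.natAbs := Int.natAbs_pos.mpr hk
  have h1 := (hP k hk (a * b * l) ((ha.mul hb).mul hl)).2 h
  have h2 : (∏ p ∈ (a * b * l).primeFactors, p) ∣ k.natAbs * l := by
    have h3 : (a * b * l).primeFactors ⊆ (k.natAbs * l).primeFactors := by
      rw [Nat.primeFactors_mul (by positivity) hl0.ne', Nat.primeFactors_mul ha0.ne' hb0.ne']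
      apply Finset.union_subset (Finset.union_subset hpa hpb)
      rw [Nat.primeFactors_mul hK.ne' hl0.ne']
      exact Finset.subset_union_right
    exact (Finset.prod_dvd_prod_of_subset _ _ _ h3).trans (Nat.prod_primeFactors_dvd _)
  have h4 : a * b * l ∣ k.natAbs * (k.natAbs * l) := h1.trans (Nat.mul_dvd_mul_left _ h2)
  rw [← Nat.mul_assoc] at h4
  exact Nat.dvd_of_mul_dvd_mul_right hl0 h4

/-- E3a, given the statement P4c -/
theorem E3a_of (hP : P4cS) (ε : ℝ) (hε : 0 < ε) : ∃ C : ℝ, 0 < C ∧ ∀ (k : ℤ) (l H : ℕ), k ≠ 0 → Odd l →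
    ∑ a ∈ Icc 1 H, ∑ b ∈ Icc 1 H,
      (if Odd a ∧ Odd b ∧ a.primeFactors ⊆ (k.natAbs * l).primeFactors ∧
          b.primeFactors ⊆ (k.natAbs * l).primeFactors then
        |Gk k (a * b * l)| / ((a : ℝ) * b) else 0) ≤
      C * (k.natAbs : ℝ) ^ ε * (l : ℝ) ^ (1 / 2 + ε) * Real.sqrt (k.natAbs.gcd l) := by
  classical
  obtain ⟨C, hC0, hC⟩ := Pool.Agent.Helper112.divisor_bound (ε / 4) (by positivity)
  refine ⟨C ^ 2, by positivity, ?_⟩
  intro k l H hk hl
  have hl0 : 0 < l := hl.pos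
  have hK : 0 < k.natAbs := Int.natAbs_pos.mpr hk
  set K := k.natAbs with hKdef
  set V : ℝ := Real.sqrt l * Real.sqrt (K.gcd l) with hV
  have hV0 : 0 ≤ V := by positivity
  set S := (K * K).divisors with hS
  have hterm : ∀ a ∈ Icc 1 H, ∀ b ∈ Icc 1 H,
      (if Odd a ∧ Odd b ∧ a.primeFactors ⊆ (K * l).primeFactors ∧
          b.primeFactors ⊆ (K * l).primeFactors then
        |Gk k (a * b * l)| / ((a : ℝ) * b) else 0) ≤
      (if a ∈ S then 1 else 0) * (if b ∈ S then 1 else 0) * V := by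
    intro a ha b hb
    by_cases hc : Odd a ∧ Odd b ∧ a.primeFactors ⊆ (K * l).primeFactors ∧
          b.primeFactors ⊆ (K * l).primeFactors
    · rw [if_pos hc]
      obtain ⟨h1, h2, h3, h4⟩ := hc
      by_cases hz : Gk k (a * b * l) = 0
      · rw [hz]; simp only [abs_zero, zero_div]; positivity
      · have hd := E3a_aux2 hP k l a b hk hl h1 h2 h3 h4 hz
        have hKK : K * K ≠ 0 := by positivity
        have hda : a ∈ S := by
          rw [hS, Nat.mem_divisors]; exact ⟨(Nat.dvd_mul_right a b).trans hd, hKK⟩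
        have hdb : b ∈ S := by
          rw [hS, Nat.mem_divisors]; exact ⟨(Nat.dvd_mul_left b a).trans hd, hKK⟩
        rw [if_pos hda, if_pos hdb, one_mul, one_mul]
        exact E3a_aux1 hP k l a b hk hl h1 h2
    · rw [if_neg hc]; positivity
  calc ∑ a ∈ Icc 1 H, ∑ b ∈ Icc 1 H,
      (if Odd a ∧ Odd b ∧ a.primeFactors ⊆ (K * l).primeFactors ∧
          b.primeFactors ⊆ (K * l).primeFactors then
        |Gk k (a * b * l)| / ((a : ℝ) * b) else 0)
      ≤ ∑ a ∈ Icc 1 H, ∑ b ∈ Icc 1 H,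
        (if a ∈ S then (1 : ℝ) else 0) * (if b ∈ S then 1 else 0) * V :=
        Finset.sum_le_sum fun a ha => Finset.sum_le_sum fun b hb => hterm a ha b hb
    _ = (∑ a ∈ Icc 1 H, if a ∈ S then (1 : ℝ) else 0) *
          (∑ b ∈ Icc 1 H, if b ∈ S then (1 : ℝ) else 0) * V := by
        rw [Finset.sum_mul_sum, Finset.sum_mul]
        refine Finset.sum_congr rfl fun a _ => ?_
        rw [Finset.sum_mul]
    _ ≤ (S.card : ℝ) * (S.card : ℝ) * V := by
        have hle : (∑ a ∈ Icc 1 H, if a ∈ S then (1 : ℝ) else 0) ≤ S.card := by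
          rw [← Finset.sum_filter, Finset.sum_const, nsmul_eq_mul, mul_one]
          norm_cast
          apply Finset.card_le_card
          intro x hx
          exact (Finset.mem_filter.mp hx).2
        have h0 : (0 : ℝ) ≤ ∑ a ∈ Icc 1 H, if a ∈ S then (1 : ℝ) else 0 :=
          Finset.sum_nonneg fun a _ => by positivity
        exact mul_le_mul_of_nonneg_right (mul_le_mul hle hle h0 (by positivity)) hV0
    _ ≤ C ^ 2 * (K : ℝ) ^ ε * (l : ℝ) ^ (1 / 2 + ε) * Real.sqrt (K.gcd l) := by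
        have hKR : (0 : ℝ) < K := by exact_mod_cast hK
        have hc1 : (S.card : ℝ) ≤ C * (K : ℝ) ^ (ε / 2) := by
          have := hC (K * K) (Nat.one_le_iff_ne_zero.mpr (by positivity))
          have h2 : ((K * K : ℕ) : ℝ) ^ (ε / 4) = (K : ℝ) ^ (ε / 2) := by
            push_cast
            rw [Real.mul_rpow hKR.le hKR.le, ← Real.rpow_add hKR]
            congr 1; ring
          rw [h2] at this
          exact this
        have hc2 : (S.card : ℝ) * S.card ≤ C ^ 2 * (K : ℝ) ^ ε := by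
          calc (S.card : ℝ) * S.card ≤ (C * (K : ℝ) ^ (ε / 2)) * (C * (K : ℝ) ^ (ε / 2)) :=
                mul_le_mul hc1 hc1 (by positivity) (by positivity)
            _ = C ^ 2 * (K : ℝ) ^ ε := by
                have : (K : ℝ) ^ (ε / 2) * (K : ℝ) ^ (ε / 2) = (K : ℝ) ^ ε := by
                  rw [← Real.rpow_add hKR]; congr 1; ring
                calc _ = C ^ 2 * ((K : ℝ) ^ (ε / 2) * (K : ℝ) ^ (ε / 2)) := by ring
                  _ = _ := by rw [this]
        have hl1 : (1 : ℝ) ≤ l := by exact_mod_cast hl0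
        have hls : Real.sqrt l ≤ (l : ℝ) ^ (1 / 2 + ε) := by
          rw [Real.sqrt_eq_rpow]
          exact Real.rpow_le_rpow_of_exponent_le hl1 (by linarith)
        calc (S.card : ℝ) * S.card * V ≤ (C ^ 2 * (K : ℝ) ^ ε) * V :=
              mul_le_mul_of_nonneg_right hc2 hV0
          _ = (C ^ 2 * (K : ℝ) ^ ε) * Real.sqrt (K.gcd l) * Real.sqrt l := by rw [hV]; ring
          _ ≤ (C ^ 2 * (K : ℝ) ^ ε) * Real.sqrt (K.gcd l) * (l : ℝ) ^ (1 / 2 + ε) :=
              mul_le_mul_of_nonneg_left hls (by positivity)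
          _ = _ := by ring

end

end Pool.Agent.H964R2.RZ
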