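import Pool.Agent.Helper819.Gr.N2

/-!
The ring of invariants of nonsingular forms is an integrally closed domain.
-/

open MvPolynomial

namespace Pool.Agent.H964R2.Normal

open Pool.Agent.Helper819.Gr Pool.Agent.Helper819.Apolar Pool.Agent.Helper819.Dyn

noncomputable section

/-- A criterion: a subring of an integrally closed domain which contains all the quotients of its
elements that lie in the big ring is integrally closed. -/
theorem ic_sub {S R : Type*} [CommRing S] [CommRing R] [IsDomain R] [IsIntegrallyClosed R]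
    (φ : S →+* R) (hφ : Function.Injective φ)
    (h : ∀ (a b : S) (y : R), b ≠ 0 → φ b * y = φ a → ∃ s, φ s = y) :
    IsDomain S ∧ IsIntegrallyClosed S := by
  have hdom : IsDomain S := hφ.isDomain φ
  refine ⟨hdom, ?_⟩
  let K := FractionRing S
  let L := FractionRing R
  rw [isIntegrallyClosed_iff K]
  intro x hx
  have hinj : Function.Injective ((algebraMap R L).comp φ) :=
    (IsFractionRing.injective R L).comp hφ
  let ψ : K →+* L := IsFractionRing.lift hinj
  have hψ : ∀ s : S, ψ (algebraMap S K s) = algebraMap R L (φ s) := fun s =>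
    IsFractionRing.lift_algebraMap hinj s
  obtain ⟨a, b, hb, rfl⟩ := IsFractionRing.div_surjective (A := S) x
  have hb0 : b ≠ 0 := nonZeroDivisors.ne_zero hb
  have h1 : IsIntegral R (ψ (algebraMap S K a / algebraMap S K b)) := by
    obtain ⟨p, hp, hp2⟩ := hx
    refine ⟨p.map φ, hp.map φ, ?_⟩
    rw [Polynomial.eval₂_map]
    have h2 := congrArg ψ hp2
    rw [Polynomial.hom_eval₂, map_zero] at h2
    have h3 : ψ.comp (algebraMap S K) = (algebraMap R L).comp φ := RingHom.ext hψ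
    rw [h3] at h2
    exact h2
  obtain ⟨y, hy⟩ := IsIntegrallyClosed.isIntegral_iff.mp h1
  rw [map_div₀, hψ, hψ] at hy
  have hb1 : algebraMap R L (φ b) ≠ 0 := by
    intro h0
    apply hb0
    apply hinj
    rw [map_zero]
    exact h0
  have h4 : φ b * y = φ a := by
    apply IsFractionRing.injective R L
    rw [map_mul, hy, mul_div_cancel₀ _ hb1]
  obtain ⟨s, hs⟩ := h a b y hb0 h4
  refine ⟨s, ?_⟩
  apply ψ.injective
  rw [hψ, hs, map_div₀, hψ, hψ, hy]

variable {N e : ℕ} (𝓡 : ResD ℂ N e)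

theorem dX_ne_zero (he : 1 ≤ e) : 𝓡.dX ≠ 0 := by
  intro h0
  apply 𝓡.dsc_fermat he
  rw [← 𝓡.eval_dX, h0, map_zero]

/-- all the fractions -/
def RA : Subalgebra ℂ (𝓡.Xs → ℂ) where
  carrier := {h | ∃ m p, h = 𝓡.fr m p}
  mul_mem' := by
    rintro _ _ ⟨m, p, rfl⟩ ⟨m', p', rfl⟩
    exact ⟨m + m', p * p', 𝓡.fr_mul _ _ _ _⟩
  add_mem' := by
    rintro _ _ ⟨m, p, rfl⟩ ⟨m', p', rfl⟩
    exact ⟨m + m', p * 𝓡.dX ^ m' + 𝓡.dX ^ m * p', 𝓡.fr_add _ _ _ _⟩
  algebraMap_mem' := by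
    intro a
    refine ⟨0, C a, ?_⟩
    funext c
    change a = eval c.1 (C a) / 𝓡.dsc c.1 ^ 0
    rw [eval_C, pow_zero, div_one]

theorem poly_eq_zero (he : 1 ≤ e) {P : MvPolynomial (Ex N (e + 1)) ℂ}
    (h : ∀ c : 𝓡.Xs, eval c.1 P = 0) : P = 0 := by
  have h1 : P * 𝓡.dX = 0 := by
    apply MvPolynomial.funext
    intro c
    rw [map_mul, map_zero, 𝓡.eval_dX]
    by_cases hc : 𝓡.dsc c = 0
    · rw [hc, mul_zero]
    · have := h ⟨c, hc⟩
      change eval c P = 0 at this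
      rw [this, zero_mul]
  exact (mul_eq_zero.mp h1).resolve_right (dX_ne_zero 𝓡 he)

/-- The map from polynomials. -/
def toRA : MvPolynomial (Ex N (e + 1)) ℂ →+* RA 𝓡 where
  toFun p := ⟨fun c => eval c.1 p, 0, p, by
    funext c
    change eval c.1 p = eval c.1 p / 𝓡.dsc c.1 ^ 0
    rw [pow_zero, div_one]⟩
  map_one' := by
    apply Subtype.ext
    funext c
    exact map_one _
  map_mul' p q := by
    apply Subtype.ext
    funext c
    exact map_mul _ _ _
  map_zero' := by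
    apply Subtype.ext
    funext c
    exact map_zero _
  map_add' p q := by
    apply Subtype.ext
    funext c
    exact map_add _ _ _

theorem RA_ic (he : 1 ≤ e) : IsDomain (RA 𝓡) ∧ IsIntegrallyClosed (RA 𝓡) := by
  let _ : Algebra (MvPolynomial (Ex N (e + 1)) ℂ) (RA 𝓡) := (toRA 𝓡).toAlgebra
  have hloc : IsLocalization.Away 𝓡.dX (RA 𝓡) := by
    refine IsLocalization.Away.mk 𝓡.dX ?_ ?_ ?_
    · refine IsUnit.of_mul_eq_one (b := ⟨𝓡.fr 1 1, 1, 1, rfl⟩) ?_
      apply Subtype.ext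
      funext c
      change eval c.1 𝓡.dX * (eval c.1 1 / 𝓡.dsc c.1 ^ 1) = 1
      have := c.2
      rw [𝓡.eval_dX, map_one, pow_one]
      field_simp
    · rintro ⟨_, m, p, rfl⟩
      refine ⟨m, p, ?_⟩
      apply Subtype.ext
      funext c
      change (eval c.1 p / 𝓡.dsc c.1 ^ m) * (eval c.1 𝓡.dX) ^ m = eval c.1 p
      have := pow_ne_zero m c.2
      rw [𝓡.eval_dX]
      field_simp
    · intro a b hab
      refine ⟨0, ?_⟩
      rw [pow_zero, one_mul, one_mul, ← sub_eq_zero]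
      apply poly_eq_zero 𝓡 he
      intro c
      have h1 := congrFun (congrArg Subtype.val hab) c
      change eval c.1 a = eval c.1 b at h1
      rw [map_sub, h1, sub_self]
  have hle : Submonoid.powers 𝓡.dX ≤ nonZeroDivisors (MvPolynomial (Ex N (e + 1)) ℂ) :=
    powers_le_nonZeroDivisors_of_noZeroDivisors (dX_ne_zero 𝓡 he)
  exact ⟨IsLocalization.isDomain_of_le_nonZeroDivisors _ hle,
    isIntegrallyClosed_of_isLocalization _ _ hle⟩

/-- invariance -/
theorem fr_act {m : ℕ} {p : MvPolynomial (Ex N (e + 1)) ℂ}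
    (hp : IsSemi (XA N (e + 1)).toRAct (m • wx 𝓡.r) p) (A : Mt Bool (N + 1) ℂ)
    (hA : ∀ s, (A s).det ≠ 0) (c : 𝓡.Xs) :
    eval ((XA N (e + 1)).act A c.1) p / 𝓡.dsc ((XA N (e + 1)).act A c.1) ^ m =
      eval c.1 p / 𝓡.dsc c.1 ^ m := by
  have h1 := hp A c.1
  have h2 := 𝓡.dX_semi A c.1
  rw [𝓡.eval_dX, 𝓡.eval_dX] at h2
  rw [h1, h2, mul_pow, detw_smul]
  exact mul_div_mul_left _ _ (pow_ne_zero _ (detw_ne_zero _ _ hA))

theorem act_ne {A : Mt Bool (N + 1) ℂ} (hA : ∀ s, (A s).det ≠ 0) {c : Ex N (e + 1) → ℂ}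
    (hc : 𝓡.dsc c ≠ 0) : 𝓡.dsc ((XA N (e + 1)).act A c) ≠ 0 := by
  have h1 := 𝓡.dX_semi A c
  rw [𝓡.eval_dX, 𝓡.eval_dX] at h1
  rw [h1]
  exact mul_ne_zero (detw_ne_zero _ _ hA) hc

theorem SS_ic (he : 1 ≤ e) : IsDomain 𝓡.SS ∧ IsIntegrallyClosed 𝓡.SS := by
  obtain ⟨hd1, hd2⟩ := RA_ic 𝓡 he
  have hle : 𝓡.SS ≤ RA 𝓡 := by
    rintro _ ⟨m, p, _, rfl⟩
    exact ⟨m, p, rfl⟩
  refine ic_sub (Subalgebra.inclusion hle).toRingHom (Subalgebra.inclusion_injective hle) ?_
  rintro ⟨_, m, p, hp, rfl⟩ ⟨_, l, q, hq, rfl⟩ ⟨_, s, y, rfl⟩ hb hby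
  have hq0 : q ≠ 0 := by
    rintro rfl
    apply hb
    apply Subtype.ext
    funext c
    change eval c.1 0 / 𝓡.dsc c.1 ^ l = 0
    rw [map_zero, zero_div]
  have hrel : ∀ c : 𝓡.Xs, eval c.1 q / 𝓡.dsc c.1 ^ l * (eval c.1 y / 𝓡.dsc c.1 ^ s) =
      eval c.1 p / 𝓡.dsc c.1 ^ m := fun c => congrFun (congrArg Subtype.val hby) c
  have hy : IsSemi (XA N (e + 1)).toRAct (s • wx 𝓡.r) y := by
    -- first for invertible matrices
    have h1 : ∀ A : Mt Bool (N + 1) ℂ, (∀ s, (A s).det ≠ 0) → ∀ c : Ex N (e + 1) → ℂ,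
        eval ((XA N (e + 1)).act A c) y = detw (s • wx 𝓡.r) A * eval c y := by
      intro A hA
      have h2 : (Helper819.Gr.compT (XA N (e + 1)).toRAct A y - C (detw (s • wx 𝓡.r) A) * y) * q = 0 := by
        apply poly_eq_zero 𝓡 he
        intro c
        rw [map_mul, map_sub, map_mul, eval_C, Helper819.Gr.eval_compT]
        by_cases hqc : eval c.1 q = 0
        · rw [hqc, mul_zero]
        · have h3 := hrel c
          have h4 := hrel ⟨_, act_ne 𝓡 hA c.2⟩
          change eval ((XA N (e + 1)).act A c.1) q / 𝓡.dsc ((XA N (e + 1)).act A c.1) ^ l *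
            (eval ((XA N (e + 1)).act A c.1) y / 𝓡.dsc ((XA N (e + 1)).act A c.1) ^ s) =
            eval ((XA N (e + 1)).act A c.1) p / 𝓡.dsc ((XA N (e + 1)).act A c.1) ^ m at h4
          rw [fr_act 𝓡 hq A hA c, fr_act 𝓡 hp A hA c, ← h3] at h4
          have h5 : eval c.1 q / 𝓡.dsc c.1 ^ l ≠ 0 := div_ne_zero hqc (pow_ne_zero _ c.2)
          have h6 := mul_left_cancel₀ h5 h4
          have h7 := 𝓡.dX_semi A c.1
          rw [𝓡.eval_dX, 𝓡.eval_dX] at h7
          rw [h7, mul_pow, ← detw_smul] at h6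
          have h8 : detw (s • wx 𝓡.r) A ≠ 0 := detw_ne_zero _ _ hA
          have h9 : 𝓡.dsc c.1 ^ s ≠ 0 := pow_ne_zero _ c.2
          have h10 : eval ((XA N (e + 1)).act A c.1) y = detw (s • wx 𝓡.r) A * eval c.1 y := by
            field_simp at h6
            linear_combination h6
          rw [h10, sub_self, zero_mul]
      intro c
      have h8 := congrArg (eval c) ((mul_eq_zero.mp h2).resolve_right hq0)
      rw [map_sub, map_mul, eval_C, Helper819.Gr.eval_compT, map_zero, sub_eq_zero] at h8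
      exact h8
    intro A c
    have h2 : aeval (Helper819.Gr.orb (XA N (e + 1)).toRAct c) y =
        C (eval c y) * dtw (N + 1) ℂ (s • wx 𝓡.r) := by
      apply Helper819.Gr.poly_ext
      intro A hA
      rw [Helper819.Gr.eval_aeval_orb, map_mul, eval_C, eval_dtw, h1 A hA c]
      ring
    rw [← Helper819.Gr.eval_aeval_orb, h2, map_mul, eval_C, eval_dtw, mul_comm]
  exact ⟨⟨_, s, y, hy, rfl⟩, rfl⟩

end

end Pool.Agent.H964R2.Normal
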